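import Mathlib
import Pool.Agent.Q92.AchDust

/-!
# MP_dc2775_an, Q1: ideal achievement sets with the Baire property are meager or comeager

The answer is positive: for every ideal `I ⊇ Fin` and every convergent series `∑ x_n`, if
`A_I(x_n)` has the Baire property in `A(x_n)`, then it is meager or comeager in `A(x_n)`.
-/

open Filter Topology Set

namespace Pool.Agent.Results.MP_dc2775_an.ZeroOne

/-- `I` is an ideal of subsets of `ℕ` containing all finite sets: closed under subsets and
finite unions, `ℕ ∉ I`, `Fin ⊆ I`. -/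
structure IsIdeal (I : Set (Set ℕ)) : Prop where
  subset_mem : ∀ A B : Set ℕ, A ⊆ B → B ∈ I → A ∈ I
  union_mem : ∀ A B : Set ℕ, A ∈ I → B ∈ I → A ∪ B ∈ I
  univ_notMem : (univ : Set ℕ) ∉ I
  finite_mem : ∀ A : Set ℕ, A.Finite → A ∈ I

/-- The series `∑_{n ∈ A} x_n` converges (in the natural order) and its sum is `s`. -/
def HasSubsum (x : ℕ → ℝ) (A : Set ℕ) (s : ℝ) : Prop :=
  Tendsto (fun n => ∑ i ∈ Finset.range n, A.indicator x i) atTop (𝓝 s)

/-- The achievement set `A(x_n)`. -/
def achievementSet (x : ℕ → ℝ) : Set ℝ := {s | ∃ A : Set ℕ, HasSubsum x A s}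

/-- The ideal achievement set `A_I(x_n)`. -/
def idealAchievementSet (I : Set (Set ℕ)) (x : ℕ → ℝ) : Set ℝ :=
  {s | ∃ A ∈ I, HasSubsum x A s}

/-- `S` has the Baire property in the subspace `A` of the real line: in `A` it differs from a
relatively open set by a meager set. -/
def HasBaireProperty (A S : Set ℝ) : Prop :=
  ∃ U : Set A, IsOpen U ∧ IsMeagre (symmDiff ((↑) ⁻¹' S : Set A) U)

/-- `S` is meager in the subspace `A` of the real line. -/
def IsMeagerIn (A S : Set ℝ) : Prop := IsMeagre ((↑) ⁻¹' S : Set A)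

/-- `S` is comeager in the subspace `A` of the real line: `A \ S` is meager in `A`. -/
def IsComeagerIn (A S : Set ℝ) : Prop := IsMeagre ((↑) ⁻¹' S : Set A)ᶜ

theorem result (I : Set (Set ℕ)) (hI : IsIdeal I) (x : ℕ → ℝ)
    (hx : ∃ s, Tendsto (fun n => ∑ i ∈ Finset.range n, x i) atTop (𝓝 s))
    (hB : HasBaireProperty (achievementSet x) (idealAchievementSet I x)) :
    IsMeagerIn (achievementSet x) (idealAchievementSet I x) ∨
      IsComeagerIn (achievementSet x) (idealAchievementSet I x) := by
  obtain ⟨t, ht⟩ := hx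
  have hF : Q92.Ach.FinInv I := by
    intro C hC D hCD
    refine hI.subset_mem D (C ∪ symmDiff C D) ?_ (hI.union_mem _ _ hC (hI.finite_mem _ hCD))
    intro i hi
    by_cases h : i ∈ C
    · left; exact h
    · right; right; exact ⟨hi, h⟩
  have hA : Q92.Ach.Ach univ x = achievementSet x := by
    ext s
    constructor
    · rintro ⟨C, -, h⟩; exact ⟨C, h⟩
    · rintro ⟨C, h⟩; exact ⟨C, mem_univ _, h⟩
  have h := Q92.Ach.spread_all ht hF
  rw [hA] at h
  exact h.dichotomy hB

end Pool.Agent.Results.MP_dc2775_an.ZeroOne
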